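import Mathlib.Algebra.Group.End
import Mathlib.Algebra.Order.Group.Unbundled.Abs
import Mathlib.Data.Fintype.Basic
import Mathlib.Algebra.BigOperators.Group.Finset.Defs

/-!
# Solitons of cellular automata: definitions
-/

set_option autoImplicit false

namespace Pool.Agent.MP_5c31ca_lc

/-- `(x, y)` is a soliton of `F`: a diamond whose difference set keeps a bounded diameter. -/
def IsSoliton {A : Type} (F : (ℤ → A) → (ℤ → A)) (x y : ℤ → A) : Prop :=
  x ≠ y ∧ {i | x i ≠ y i}.Finite ∧ ∃ D : ℕ, ∀ (t : ℕ) (i j : ℤ),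
    F^[t] x i ≠ F^[t] y i → F^[t] x j ≠ F^[t] y j → |i - j| ≤ D

/-- `F` has a soliton. -/
def HasSoliton {A : Type} (F : (ℤ → A) → (ℤ → A)) : Prop := ∃ x y, IsSoliton F x y

/-- The abelian cellular automaton `F(x)_i = ∑_{j = -r}^{r} h_j (x_{i + j})`; the index
`j : Fin (2 * r + 1)` stands for `j - r`. -/
def abelianCA {A : Type} [AddCommGroup A] (r : ℕ) (h : Fin (2 * r + 1) → A →+ A) (x : ℤ → A) :
    ℤ → A :=
  fun i => ∑ j, h j (x (i + (((j : ℕ) : ℤ) - r)))

/-- The finite description of an abelian cellular automaton, the elements of `A` being numbered by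
`e`: the addition table of `A` and the value tables of the endomorphisms `h_j`. -/
def code {A : Type} [AddCommGroup A] {n r : ℕ} (e : Fin n ≃ A) (h : Fin (2 * r + 1) → A →+ A) :
    List (List ℕ) × List (List ℕ) :=
  (List.ofFn fun a : Fin n => List.ofFn fun b : Fin n => (e.symm (e a + e b) : ℕ),
    List.ofFn fun j : Fin (2 * r + 1) => List.ofFn fun a : Fin n => (e.symm (h j (e a)) : ℕ))

end Pool.Agent.MP_5c31ca_lc
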