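import Mathlib.Algebra.BigOperators.Fin
import Mathlib.Algebra.Group.Subgroup.Finite
import Mathlib.Algebra.CharP.Defs
import Mathlib.Data.Int.SuccPred
import Mathlib.Data.Int.Star
import Mathlib.Algebra.Order.Ring.Star
import Mathlib.Analysis.SpecificLimits.Basic
import Mathlib.Algebra.Order.Star.Real
import Mathlib.Order.Interval.Finset.Box
import Mathlib.Computability.Primrec.List
import Mathlib.Tactic.Algebra.Basic
import Pool.Agent.MP_5c31ca_lc.Defs

-- ======== part 0: formerly Pool.Agent.MP_5c31ca_lc.Period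
section MrgPart0

/-!
# Bounding the period of a soliton of an abelian cellular automaton
-/

set_option autoImplicit false

open Function

namespace Pool.Agent.MP_5c31ca_lc

variable {A : Type} [AddCommGroup A]

lemma shift_injective {y : ℤ → A} (hy : y ≠ 0) (hf : (support y).Finite) {m m' : ℤ}
    (h : ∀ i, y (i - m) = y (i - m')) : m = m' := by
  by_contra hne
  obtain ⟨i, hi⟩ := Function.ne_iff.1 hy
  have hper : ∀ j, y (j + (m - m')) = y j := fun j => by
    have := h (j + m)
    rw [add_sub_cancel_right] at this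
    rw [this]
    congr 1
    ring
  have hall : ∀ l : ℕ, y (i + l * (m - m')) = y i := fun l => by
    induction l with
    | zero => simp
    | succ l ih =>
      rw [← ih, ← hper (i + l * (m - m'))]
      congr 1
      push_cast
      ring
  refine Set.infinite_of_injective_forall_mem (f := fun l : ℕ => i + l * (m - m')) ?_ ?_ hf
  · intro a b hab
    have h1 : (a : ℤ) * (m - m') = b * (m - m') := add_left_cancel hab
    exact_mod_cast mul_right_cancel₀ (sub_ne_zero.2 hne) h1
  · intro l
    rw [mem_support, hall]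
    exact hi

lemma le_of_pow_le {a n D : ℕ} (hn : 0 < n) (h : ∀ J, a ^ J ≤ n ^ (D + J)) : a ≤ n := by
  by_contra hcon
  have hn' : (0 : ℝ) < n := by exact_mod_cast hn
  have h1 : (1 : ℝ) < (a : ℝ) / n := (one_lt_div hn').2 (by exact_mod_cast not_le.1 hcon)
  obtain ⟨J, hJ⟩ := ((tendsto_pow_atTop_atTop_of_one_lt h1).eventually_gt_atTop
    ((n : ℝ) ^ D)).exists
  rw [div_pow, lt_div_iff₀ (by positivity), ← pow_add] at hJ
  exact absurd (by exact_mod_cast h J) (not_le.2 hJ)

section abstract

variable {W : Type} [AddCommGroup W] (ι : W →+ (ℤ → A))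

lemma emul (f g : AddMonoid.End W) (x : W) : (f * g) x = f (g x) := rfl

lemma eone (x : W) : (1 : AddMonoid.End W) x = x := rfl

/-- Elements supported in `[α, α + L)`. -/
def win (α : ℤ) (L : ℕ) : AddSubgroup W where
  carrier := {x | ∀ i, ¬ (α ≤ i ∧ i < α + L) → ι x i = 0}
  zero_mem' := fun i _ => by simp
  add_mem' := fun ha hb i hi => by simp [ha i hi, hb i hi]
  neg_mem' := fun ha i hi => by simp [ha i hi]

lemma win_inj (hι : Injective ι) (α : ℤ) (L : ℕ) :
    Injective fun (x : win ι α L) (j : Fin L) => ι x (α + j) := by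
  intro x y h
  refine Subtype.ext (hι (funext fun i => ?_))
  by_cases hi : α ≤ i ∧ i < α + L
  · have := congrFun h ⟨(i - α).toNat, by omega⟩
    simp only at this
    rwa [show α + ((i - α).toNat : ℤ) = i by omega] at this
  · rw [x.2 i hi, y.2 i hi]

lemma finite_win [Finite A] (hι : Injective ι) (α : ℤ) (L : ℕ) : Finite (win ι α L) :=
  Finite.of_injective _ (win_inj ι hι α L)

lemma card_win [Finite A] (hι : Injective ι) (α : ℤ) (L : ℕ) :
    Nat.card (win ι α L) ≤ Nat.card A ^ L := by
  have := Nat.card_le_card_of_injective _ (win_inj ι hι α L)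
  rwa [Nat.card_fun, Nat.card_eq_fintype_card (α := Fin _), Fintype.card_fin] at this

lemma exists_win (hfin : ∀ x, (support (ι x)).Finite) {S : Set W} (hS : S.Finite) :
    ∃ α L, ∀ x ∈ S, x ∈ win ι α L := by
  have h := hS.biUnion fun x _ => hfin x
  obtain ⟨a, ha⟩ := h.bddBelow
  obtain ⟨b, hb⟩ := h.bddAbove
  refine ⟨a, (b + 1 - a).toNat, fun x hx i hi => ?_⟩
  by_contra hne
  have h1 := ha (Set.mem_biUnion hx hne)
  have h2 := hb (Set.mem_biUnion hx hne)
  exact hi ⟨h1, by omega⟩

lemma shift_zpow (s : (AddMonoid.End W)ˣ)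
    (hs : ∀ x i, ι ((s : AddMonoid.End W) x) i = ι x (i - 1)) (m : ℤ) (x : W) (i : ℤ) :
    ι (((s ^ m : (AddMonoid.End W)ˣ) : AddMonoid.End W) x) i = ι x (i - m) := by
  induction m using Int.induction_on generalizing x i with
  | zero => simp
  | succ m ih =>
    rw [zpow_add_one, Units.val_mul, emul, ih, hs]
    exact congrArg (ι x) (by ring)
  | pred m ih =>
    have h1 := hs (((s⁻¹ : (AddMonoid.End W)ˣ) : AddMonoid.End W) x) (i - -(m : ℤ) + 1)
    rw [← emul, Units.mul_inv, eone] at h1
    rw [zpow_sub_one, Units.val_mul, emul, ih]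
    rw [add_sub_cancel_right] at h1
    rw [← h1]
    exact congrArg (ι x) (by ring)

theorem exists_short_period [Finite A] [Nontrivial W] (hι : Injective ι)
    (hfin : ∀ x, (support (ι x)).Finite) (φ s : (AddMonoid.End W)ˣ)
    (hs : ∀ x i, ι ((s : AddMonoid.End W) x) i = ι x (i - 1)) (hc : Commute φ s) (q : ℕ)
    (hq : 0 < q) (k : ℤ) (h : φ ^ q = s ^ k) :
    ∃ m : ℕ, 1 ≤ m ∧ m ≤ Nat.card A * Nat.card A ∧ ∃ (k' : ℤ) (u : W), u ≠ 0 ∧
      ((φ ^ m : (AddMonoid.End W)ˣ) : AddMonoid.End W) u =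
        ((s ^ k' : (AddMonoid.End W)ˣ) : AddMonoid.End W) u := by
  classical
  obtain ⟨g, b, a, u, v, hg, hqb, hka, huv⟩ : ∃ (g b : ℕ) (a u v : ℤ), 0 < g ∧ q = g * b ∧
      k = g * a ∧ a * u + b * v = 1 := by
    have hg : 0 < Int.gcd k q := Int.gcd_pos_of_ne_zero_right _ (by omega)
    obtain ⟨a, ha⟩ := Int.gcd_dvd_left k q
    obtain ⟨b, hb⟩ : Int.gcd k q ∣ q := by exact_mod_cast Int.gcd_dvd_right k q
    refine ⟨_, b, a, Int.gcdA k q, Int.gcdB k q, hg, hb, ha, ?_⟩
    have h1 := Int.gcd_eq_gcd_ab k q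
    have hb' : (q : ℤ) = (Int.gcd k q : ℤ) * b := by exact_mod_cast hb
    have hg' : (Int.gcd k q : ℤ) ≠ 0 := by exact_mod_cast hg.ne'
    generalize Int.gcdA k q = x at h1 ⊢
    generalize Int.gcdB k q = y at h1 ⊢
    generalize (Int.gcd k q : ℤ) = d at ha hb' h1 hg'
    refine mul_left_cancel₀ hg' ?_
    rw [ha, hb'] at h1
    linarith
  have hb : 0 < b := Nat.pos_of_ne_zero fun h0 => by simp [h0] at hqb; omega
  set G : (AddMonoid.End W)ˣ := φ ^ b * s ^ (-a) with hG
  set τ : (AddMonoid.End W)ˣ := φ ^ u * s ^ v with hτ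
  have hGs : Commute G s :=
    (hc.pow_left b).mul_left ((Commute.refl s).zpow_left _)
  have hGφ : Commute G φ :=
    ((Commute.refl φ).pow_left b).mul_left (hc.symm.zpow_left _)
  have hGτ : Commute G τ := (hGφ.zpow_right u).mul_right (hGs.zpow_right v)
  have hτs : Commute τ s := (hc.zpow_left u).mul_left ((Commute.refl s).zpow_left _)
  have hGm : ∀ m : ℕ, G ^ m = φ ^ (b * m) * s ^ (-(a * m)) := fun m => by
    rw [hG, ((hc.pow_left b).zpow_right _).mul_pow, ← pow_mul, ← zpow_natCast (s ^ (-a)),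
      ← zpow_mul, neg_mul]
  have hGg : G ^ g = 1 := by
    rw [hGm, mul_comm b g, ← hqb, h, mul_comm a, ← hka, ← zpow_add, add_neg_cancel, zpow_zero]
  have hτb : τ ^ b = G ^ u * s := by
    rw [hτ, hG, ((hc.zpow_left u).zpow_right v).mul_pow, ((hc.pow_left b).zpow_right _).mul_zpow,
      ← zpow_natCast (φ ^ u), ← zpow_natCast (s ^ v), ← zpow_natCast φ, ← zpow_mul, ← zpow_mul,
      ← zpow_mul, ← zpow_mul, mul_assoc, ← zpow_add_one, mul_comm u]
    congr 2
    linarith
  -- invariant subgroups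
  let Inv : AddSubgroup W → Prop := fun U => ∀ x ∈ U, (G : AddMonoid.End W) x ∈ U
  have hpow : ∀ U, Inv U → ∀ (m : ℕ), ∀ x ∈ U,
      ((G ^ m : (AddMonoid.End W)ˣ) : AddMonoid.End W) x ∈ U := fun U hU m => by
    induction m with
    | zero => intro x hx; simpa using hx
    | succ m ih =>
      intro x hx
      rw [pow_succ, Units.val_mul, emul]
      exact ih _ (hU x hx)
  have hzpow : ∀ U, Inv U → ∀ (m : ℤ), ∀ x ∈ U,
      ((G ^ m : (AddMonoid.End W)ˣ) : AddMonoid.End W) x ∈ U := fun U hU m x hx => by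
    have h1 : G ^ m = G ^ (m % g).toNat := by
      rw [zpow_eq_zpow_emod' m hGg, ← zpow_natCast, Int.toNat_of_nonneg]
      exact Int.emod_nonneg _ (by exact_mod_cast hg.ne')
    rw [h1]
    exact hpow U hU _ x hx
  have hex : ∃ N, ∃ U : AddSubgroup W, U ≠ ⊥ ∧ Finite U ∧ Inv U ∧ Nat.card U = N := by
    obtain ⟨c, hc0⟩ := exists_ne (0 : W)
    obtain ⟨α, L, hw⟩ := exists_win ι hfin (Set.finite_range
      fun i : Fin g => ((G ^ (i : ℕ) : (AddMonoid.End W)ˣ) : AddMonoid.End W) c)
    let U : AddSubgroup W := ⨅ i : ℕ, (win ι α L).comap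
      ((G ^ i : (AddMonoid.End W)ˣ) : AddMonoid.End W)
    have hU : ∀ x, x ∈ U ↔ ∀ i : ℕ,
        ((G ^ i : (AddMonoid.End W)ˣ) : AddMonoid.End W) x ∈ win ι α L := fun x => by
      simp only [U, AddSubgroup.mem_iInf, AddSubgroup.mem_comap]
      rfl
    have hle : U ≤ win ι α L := fun x hx => by simpa using (hU x).1 hx 0
    have := finite_win ι hι α L
    refine ⟨_, U, fun h0 => hc0 ?_, Finite.of_injective _ (AddSubgroup.inclusion_injective hle),
      fun x hx => (hU _).2 fun i => ?_, rfl⟩
    · rw [← AddSubgroup.mem_bot, ← h0, hU]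
      intro i
      rw [pow_eq_pow_mod i hGg]
      exact hw _ ⟨⟨i % g, Nat.mod_lt _ hg⟩, rfl⟩
    · rw [← emul, ← Units.val_mul, ← pow_succ]
      exact (hU x).1 hx _
  obtain ⟨U, hU0, hUf, hUi, hUc⟩ := Nat.find_spec hex
  have hmin : ∀ U' ≤ U, U' ≠ ⊥ → Inv U' → U' = U := fun U' hle h0 hi =>
    AddSubgroup.eq_of_le_of_card_ge hle (hUc ▸ Nat.find_min' hex
      ⟨U', h0, Finite.of_injective _ (AddSubgroup.inclusion_injective hle), hi, rfl⟩)
  let T : ℕ → AddMonoid.End W := fun j => ((τ ^ j : (AddMonoid.End W)ˣ) : AddMonoid.End W)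
  have hT : ∀ i j x, T (i + j) x = T i (T j x) := fun i j x => by
    simp only [T, pow_add, Units.val_mul, emul]
  have hTG : ∀ j x, (G : AddMonoid.End W) (T j x) = T j ((G : AddMonoid.End W) x) := fun j x => by
    simp only [T]
    rw [← emul, ← emul, ← Units.val_mul, ← Units.val_mul,
      (hGτ.pow_right j).eq]
  have hTinj : ∀ j x, T j x = 0 → x = 0 := fun j x hx => by
    have := congrArg (((τ ^ j)⁻¹ : (AddMonoid.End W)ˣ) : AddMonoid.End W) hx
    rwa [← emul, Units.inv_mul, map_zero] at this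
  have hwinT : ∀ J : ℕ, ∃ α L, ∀ j < J, ∀ x ∈ U, T j x ∈ win ι α L := fun J => by
    obtain ⟨α, L, hw⟩ := exists_win ι hfin (Set.finite_range
      fun p : Fin J × U => T p.1 p.2)
    exact ⟨α, L, fun j hj x hx => hw _ ⟨(⟨j, hj⟩, ⟨x, hx⟩), rfl⟩⟩
  -- independence
  have hind : ∀ J (w : ℕ → W), (∀ j, w j ∈ U) → ∑ j ∈ Finset.range J, T j (w j) = 0 →
      ∀ j < J, w j = 0 := by
    intro J
    induction J with
    | zero => intro w _ _ j hj; omega
    | succ J ih =>
      intro w hw hsum
      rw [Finset.sum_range_succ] at hsum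
      have hJ : w J = 0 := by
        by_contra hne
        let N : AddSubgroup W := AddSubgroup.closure {y | ∃ j < J, ∃ x ∈ U, T j x = y}
        have hNG : Inv N := fun y hy => by
          refine (AddSubgroup.closure_le (N.comap (G : AddMonoid.End W))).2 ?_ hy
          rintro _ ⟨j, hj, x, hx, rfl⟩
          exact AddSubgroup.subset_closure ⟨j, hj, _, hUi x hx, (hTG j x).symm⟩
        have hyN : T J (w J) ∈ N := by
          rw [eq_neg_of_add_eq_zero_right hsum]
          exact N.neg_mem (N.sum_mem fun j hj => AddSubgroup.subset_closure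
            ⟨j, Finset.mem_range.1 hj, _, hw j, rfl⟩)
        have hU' : U ⊓ N.comap (T J) = U := hmin _ inf_le_left
          (fun h0 => hne (by
            rw [← AddSubgroup.mem_bot, ← h0]
            exact ⟨hw J, hyN⟩))
          (fun x hx => ⟨hUi x hx.1, by
            have h1 : T J x ∈ N := hx.2
            have h2 := hNG _ h1
            rwa [hTG] at h2⟩)
        have hN1 : ∀ y ∈ N, T 1 y ∈ N := fun y hy => by
          refine (AddSubgroup.closure_le (N.comap (T 1))).2 ?_ hy
          rintro _ ⟨j, hj, x, hx, rfl⟩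
          change T 1 (T j x) ∈ N
          rw [← hT, add_comm]
          rcases Nat.lt_or_eq_of_le (Nat.succ_le_of_lt hj) with h1 | h1
          · exact AddSubgroup.subset_closure ⟨j + 1, h1, x, hx, rfl⟩
          · rw [show j + 1 = J from h1]
            exact (hU'.ge hx).2
        have hNi : ∀ i, ∀ y ∈ N, T i y ∈ N := fun i => by
          induction i with
          | zero => intro y hy; simpa [T] using hy
          | succ i ih' =>
            intro y hy
            rw [hT]
            exact ih' _ (hN1 y hy)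
        obtain ⟨α, L, hw'⟩ := hwinT J
        have hNw : N ≤ win ι α L := (AddSubgroup.closure_le _).2 (by
          rintro _ ⟨j, hj, x, hx, rfl⟩
          exact hw' j hj x hx)
        have := finite_win ι hι α L
        obtain ⟨i, i', hii, he⟩ := Finite.exists_ne_map_eq_of_infinite
          fun i : ℕ => (⟨T (b * g * i) (T J (w J)), hNw (hNi _ _ hyN)⟩ : win ι α L)
        have hpw : ∀ i : ℕ, τ ^ (b * g * i) = s ^ ((g * i : ℕ) : ℤ) := fun i => by
          rw [mul_assoc, pow_mul, hτb, (hGs.zpow_left u).mul_pow, ← zpow_natCast (G ^ u),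
            ← zpow_mul, mul_comm u, zpow_mul, zpow_natCast G, pow_mul, hGg, one_pow, one_zpow,
            one_mul, zpow_natCast]
        have he' : T (b * g * i) (T J (w J)) = T (b * g * i') (T J (w J)) := congrArg Subtype.val he
        simp only [T, hpw] at he'
        have h3 := shift_injective (y := ι (T J (w J)))
          (fun h0 => hne (hTinj _ _ (hι (h0.trans (map_zero ι).symm)))) (hfin _)
          (m := ((g * i : ℕ) : ℤ)) (m' := ((g * i' : ℕ) : ℤ)) fun p => by
            rw [← shift_zpow ι s hs, ← shift_zpow ι s hs]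
            exact congrArg (fun y => ι y p) he'
        exact hii (Nat.eq_of_mul_eq_mul_left hg (by exact_mod_cast h3))
      rw [hJ, map_zero, add_zero] at hsum
      intro j hj
      rcases Nat.lt_succ_iff_lt_or_eq.1 hj with h1 | h1
      · exact ih w hw hsum j h1
      · rw [h1, hJ]
  -- growth
  obtain ⟨α, L, hw⟩ := hwinT b
  have hgrow : ∀ J, (Nat.card U ^ b) ^ J ≤ Nat.card A ^ (L + J) := fun J => by
    have hmem : ∀ j < b * J, ∀ x ∈ U, T j x ∈ win ι α (L + J) := fun j hj x hx => by
      have h1 : τ ^ j = s ^ ((j / b : ℕ) : ℤ) * (τ ^ (j % b) * G ^ (u * (j / b : ℕ))) := by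
        conv_lhs => rw [← Nat.div_add_mod j b]
        rw [pow_add, pow_mul, hτb, (hGs.zpow_left u).mul_pow, ← zpow_natCast (G ^ u), ← zpow_mul,
          zpow_natCast s, ((hGs.zpow_left _).pow_right _).eq, mul_assoc,
          ((hGτ.zpow_left _).pow_right _).eq]
      intro p hp
      simp only [T]
      rw [h1, Units.val_mul, emul, shift_zpow ι s hs, Units.val_mul,
        emul]
      refine hw _ (Nat.mod_lt _ hb) _ (hzpow U hUi _ x hx) _ fun h2 => hp ?_
      have h3 : j / b < J := Nat.div_lt_of_lt_mul hj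
      push_cast at h2 ⊢
      have h4 : ((j : ℤ) / b) < J := by exact_mod_cast h3
      have h5 : 0 ≤ (j : ℤ) / b := by positivity
      omega
    let ext : (Fin (b * J) → U) → ℕ → W := fun w j => if h : j < b * J then w ⟨j, h⟩ else 0
    have hext : ∀ w j, ext w j ∈ U := fun w j => by
      simp only [ext]
      split_ifs
      exacts [(w _).2, U.zero_mem]
    have := finite_win ι hι α (L + J)
    have hinj : Injective fun w : Fin (b * J) → U =>
        (⟨∑ j ∈ Finset.range (b * J), T j (ext w j), (win ι α (L + J)).sum_mem fun j hj =>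
          hmem j (Finset.mem_range.1 hj) _ (hext w j)⟩ : win ι α (L + J)) := by
      intro w w' hww
      have h1 : ∑ j ∈ Finset.range (b * J), T j (ext w j) =
          ∑ j ∈ Finset.range (b * J), T j (ext w' j) := congrArg Subtype.val hww
      have h2 := hind (b * J) (fun j => ext w j - ext w' j)
        (fun j => U.sub_mem (hext w j) (hext w' j))
        (by simp only [map_sub, Finset.sum_sub_distrib, h1, sub_self])
      funext j
      have h3 := h2 j j.2
      simp only [ext, j.2, dif_pos] at h3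
      exact Subtype.ext (sub_eq_zero.1 h3)
    have h1 := (Nat.card_le_card_of_injective _ hinj).trans (card_win ι hι α (L + J))
    rwa [Nat.card_fun, Nat.card_eq_fintype_card (α := Fin _), Fintype.card_fin, pow_mul] at h1
  have hn : 0 < Nat.card A := Nat.card_pos
  have hUb : Nat.card U ^ b ≤ Nat.card A := le_of_pow_le hn hgrow
  have hU2 : 2 ≤ Nat.card U := (AddSubgroup.one_lt_card_iff_ne_bot U).2 hU0
  have hbn : b ≤ Nat.card A :=
    (Nat.lt_two_pow_self.le.trans (Nat.pow_le_pow_left hU2 b)).trans hUb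
  have hUn : Nat.card U ≤ Nat.card A := (Nat.le_self_pow hb.ne' _).trans hUb
  obtain ⟨⟨x, hx⟩, hx0⟩ := AddSubgroup.ne_bot_iff_exists_ne_zero.1 hU0
  have hx0' : x ≠ 0 := fun h0 => hx0 (Subtype.ext h0)
  have := Fintype.ofFinite U
  obtain ⟨m, hm1, hm2, hm⟩ : ∃ m : ℕ, 1 ≤ m ∧ m ≤ Nat.card A ∧
      ((G ^ m : (AddMonoid.End W)ˣ) : AddMonoid.End W) x = x := by
    have key : ∀ i j : Fin (Nat.card A + 1), i < j →
        ((G ^ (i : ℕ) : (AddMonoid.End W)ˣ) : AddMonoid.End W) x =
        ((G ^ (j : ℕ) : (AddMonoid.End W)ˣ) : AddMonoid.End W) x → ∃ m : ℕ, 1 ≤ m ∧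
        m ≤ Nat.card A ∧ ((G ^ m : (AddMonoid.End W)ˣ) : AddMonoid.End W) x = x := by
      intro i j hij he
      have hij' : (i : ℕ) < j := hij
      refine ⟨j - i, by omega, by omega, ?_⟩
      have h1 := congrArg (((G ^ (i : ℕ))⁻¹ : (AddMonoid.End W)ˣ) : AddMonoid.End W) he
      rw [← emul, ← emul, Units.inv_mul, ← Units.val_mul,
        eone] at h1
      rw [pow_sub _ hij'.le, (((Commute.refl G).pow_pow _ _).inv_right).eq]
      exact h1.symm
    obtain ⟨i, j, hij, he⟩ := Fintype.exists_ne_map_eq_of_card_lt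
      (fun i : Fin (Nat.card A + 1) => (⟨_, hpow U hUi i x hx⟩ : U))
      (by rw [Fintype.card_fin, ← Nat.card_eq_fintype_card]; omega)
    have he' := congrArg Subtype.val he
    rcases lt_or_gt_of_ne hij with h1 | h1
    · exact key i j h1 he'
    · exact key j i h1 he'.symm
  refine ⟨b * m, Nat.mul_pos hb hm1, Nat.mul_le_mul hbn hm2, a * m, x, hx0', ?_⟩
  have h1 : φ ^ (b * m) = s ^ (a * m) * G ^ m := by
    rw [← ((hGs.pow_left m).zpow_right _).eq, hGm, mul_assoc, ← zpow_add, neg_add_cancel,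
      zpow_zero, mul_one]
  rw [h1, Units.val_mul, emul, hm]

end abstract

end Pool.Agent.MP_5c31ca_lc

end MrgPart0

-- ======== part 1: formerly Pool.Agent.MP_5c31ca_lc.Reduce
section MrgPart1

/-!
# Reduction of the existence of a soliton to a bounded search
-/

set_option autoImplicit false

open Function

namespace Pool.Agent.MP_5c31ca_lc

variable {A : Type} [AddCommGroup A]

/-- Shift by `k`. -/
def sh (k : ℤ) (x : ℤ → A) : ℤ → A := fun i => x (i - k)

/-- `H` is a cellular automaton of radius `R`. -/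
def Local (H : (ℤ → A) → (ℤ → A)) (R : ℕ) : Prop :=
  ∀ x y i j, (∀ d : ℤ, |d| ≤ R → x (i + d) = y (j + d)) → H x i = H y j

omit [AddCommGroup A] in
lemma Local.iterate {H : (ℤ → A) → (ℤ → A)} {R : ℕ} (h : Local H R) (q : ℕ) :
    Local H^[q] (R * q) := by
  induction q with
  | zero => intro x y i j hd; simpa using hd 0 (by simp)
  | succ q ih =>
    intro x y i j hd
    rw [iterate_succ_apply', iterate_succ_apply']
    refine h _ _ _ _ fun d hd1 => ih _ _ _ _ fun d' hd2 => ?_
    rw [add_assoc, add_assoc]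
    refine hd _ ((abs_add_le _ _).trans ?_)
    push_cast at hd2 ⊢
    linarith

omit [AddCommGroup A] in
lemma Local.sh {H : (ℤ → A) → (ℤ → A)} {R : ℕ} (h : Local H R) (k : ℤ) (x : ℤ → A) :
    H (sh k x) = sh k (H x) := funext fun i => h _ _ _ _ fun d _ => congrArg x (by ring)

lemma Local.exists_ne {H : (ℤ → A) → (ℤ → A)} {R : ℕ} (h : Local H R) (h0 : H 0 = 0) {x : ℤ → A}
    {i : ℤ} (hi : H x i ≠ 0) : ∃ d : ℤ, |d| ≤ R ∧ x (i + d) ≠ 0 := by
  by_contra hcon
  push Not at hcon
  exact hi ((h x 0 i i hcon).trans (congrFun h0 i))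

lemma Local.finite {H : (ℤ → A) → (ℤ → A)} {R : ℕ} (h : Local H R) (h0 : H 0 = 0) {x : ℤ → A}
    (hx : (support x).Finite) : (support (H x)).Finite := by
  refine (hx.biUnion (t := fun p => Set.Icc (p - R) (p + R)) fun p _ =>
    Set.finite_Icc _ _).subset fun i hi => ?_
  obtain ⟨d, hd, hd'⟩ := h.exists_ne h0 hi
  rw [abs_le] at hd
  exact Set.mem_biUnion hd' ⟨by linarith, by linarith⟩

lemma finite_sh (k : ℤ) {x : ℤ → A} (hx : (support x).Finite) : (support (sh k x)).Finite :=
  hx.preimage (f := fun i => i - k) sub_left_injective.injOn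

omit [AddCommGroup A] in
lemma sh_sh (k l : ℤ) (x : ℤ → A) : sh k (sh l x) = sh (k + l) x :=
  funext fun i => congrArg x (by ring)

omit [AddCommGroup A] in
lemma sh_zero (x : ℤ → A) : sh 0 x = x := funext fun i => congrArg x (by ring)

lemma sh_ne_zero (k : ℤ) {x : ℤ → A} (hx : x ≠ 0) : sh k x ≠ 0 := fun h => hx (by
  rw [← sh_zero x, ← neg_add_cancel k, ← sh_sh, h]
  rfl)

/-- Pumping: a nonzero finite configuration killed by `H` can be taken short. -/
lemma pump [Fintype A] {H : (ℤ → A) → (ℤ → A)} {R : ℕ} (h : Local H R) (L : ℕ) :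
    ∀ c : ℤ → A, c 0 ≠ 0 → (∀ i : ℤ, ¬ (0 ≤ i ∧ i < L) → c i = 0) → H c = 0 →
      ∃ c : ℤ → A, c ≠ 0 ∧ (∀ i : ℤ, ¬ (0 ≤ i ∧ i < (Fintype.card A ^ (2 * R) + 1 : ℕ)) → c i = 0) ∧
        H c = 0 := by
  classical
  induction L using Nat.strong_induction_on with
  | _ L ih =>
    intro c hc0 hc hH
    by_cases hL : L ≤ Fintype.card A ^ (2 * R) + 1
    · exact ⟨c, fun h0 => hc0 (congrFun h0 0), fun i hi => hc i fun h1 => hi ⟨h1.1, by omega⟩, hH⟩
    have key : ∀ i j : ℕ, i < j → j ≤ Fintype.card A ^ (2 * R) →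
        (∀ d : Fin (2 * R), c (i + 1 + d) = c (j + 1 + d)) →
        ∃ c : ℤ → A, c ≠ 0 ∧ (∀ i : ℤ, ¬ (0 ≤ i ∧ i < (Fintype.card A ^ (2 * R) + 1 : ℕ)) → c i = 0) ∧
          H c = 0 := by
      intro i j hij hj hw
      refine ih (L - (j - i)) (by omega) (fun p => if p < i + 1 then c p else c (p + (j - i)))
        (by simpa [show (0 : ℤ) < i + 1 by omega] using hc0) (fun p hp => ?_) (funext fun p => ?_)
      · split_ifs with h1
        · exact hc p fun h2 => hp ⟨h2.1, by omega⟩
        · exact hc _ fun h2 => hp ⟨by omega, by omega⟩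
      · by_cases hp : p - R < i + 1
        · refine (h _ c p p fun d hd => ?_).trans (congrFun hH p)
          rw [abs_le] at hd
          split_ifs with h1
          · rfl
          · have := hw ⟨(p + d - (i + 1)).toNat, by omega⟩
            simp only at this
            rw [show (i : ℤ) + 1 + ((p + d - (i + 1)).toNat : ℤ) = p + d by omega,
              show (j : ℤ) + 1 + ((p + d - (i + 1)).toNat : ℤ) = p + d + (j - i) by omega] at this
            exact this.symm
        · refine (h _ c p (p + (j - i)) fun d hd => ?_).trans (congrFun hH _)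
          rw [abs_le] at hd
          rw [if_neg (by omega)]
          exact congrArg c (by ring)
    obtain ⟨i, j, hij, he⟩ := Fintype.exists_ne_map_eq_of_card_lt
      (fun (i : Fin (Fintype.card A ^ (2 * R) + 1)) (d : Fin (2 * R)) =>
        c (((i : ℕ) : ℤ) + 1 + ((d : ℕ) : ℤ))) (by simp)
    rcases lt_or_gt_of_ne hij with h1 | h1
    · exact key i j h1 (Nat.lt_succ_iff.1 j.2) (congrFun he)
    · exact key j i h1 (Nat.lt_succ_iff.1 i.2) (congrFun he.symm)

lemma pump' [Fintype A] {H : (ℤ → A) → (ℤ → A)} {R : ℕ} (h : Local H R) {c : ℤ → A} (hc : c ≠ 0)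
    (hf : (support c).Finite) (hH : H c = 0) :
    ∃ c : ℤ → A, c ≠ 0 ∧ (∀ i : ℤ, ¬ (0 ≤ i ∧ i < (Fintype.card A ^ (2 * R) + 1 : ℕ)) → c i = 0) ∧
      H c = 0 := by
  obtain ⟨a, ha, ha'⟩ := Set.exists_min_image _ id hf (support_nonempty_iff.2 hc)
  obtain ⟨b, hb⟩ := hf.bddAbove
  refine pump h (b + 1 - a).toNat (sh (-a) c) (by simpa [sh] using ha) (fun i hi => ?_) ?_
  · by_contra hne
    have h1 : a ≤ i - -a := ha' _ hne
    have h2 : i - -a ≤ b := hb hne
    exact hi ⟨by omega, by omega⟩
  · rw [h.sh, hH]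
    rfl

variable {r : ℕ} (h : Fin (2 * r + 1) → A →+ A)

lemma local_ca : Local (abelianCA r h) r := fun x y i j hd => by
  refine Finset.sum_congr rfl fun l _ => congrArg _ (hd _ ?_)
  have := l.2
  rw [abs_le]
  constructor <;> omega

/-- The automaton as an endomorphism. -/
def caHom : AddMonoid.End (ℤ → A) :=
  AddMonoidHom.mk' (abelianCA r h) fun x y => funext fun i => by
    simp [abelianCA, Finset.sum_add_distrib]

lemma iter_eq (q : ℕ) (x : ℤ → A) : (abelianCA r h)^[q] x = (caHom h ^ q) x := by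
  induction q with
  | zero => rfl
  | succ q ih => rw [iterate_succ_apply', ih, pow_succ']; rfl

lemma iter_zero (q : ℕ) : (abelianCA r h)^[q] 0 = 0 := by rw [iter_eq, map_zero]

lemma iter_sub (q : ℕ) (x y : ℤ → A) :
    (abelianCA r h)^[q] (x - y) = (abelianCA r h)^[q] x - (abelianCA r h)^[q] y := by
  simp only [iter_eq, map_sub]

lemma finite_iter (q : ℕ) {x : ℤ → A} (hx : (support x).Finite) :
    (support ((abelianCA r h)^[q] x)).Finite :=
  ((local_ca h).iterate q).finite (iter_zero h q) hx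

lemma iter_sh (q : ℕ) (k : ℤ) (x : ℤ → A) :
    (abelianCA r h)^[q] (sh k x) = sh k ((abelianCA r h)^[q] x) :=
  ((local_ca h).iterate q).sh k x

lemma hasSoliton_iff : HasSoliton (abelianCA r h) ↔ ∃ c : ℤ → A, c ≠ 0 ∧ (support c).Finite ∧
    ∃ D : ℕ, ∀ (t : ℕ) (i j : ℤ), (abelianCA r h)^[t] c i ≠ 0 → (abelianCA r h)^[t] c j ≠ 0 →
      |i - j| ≤ D := by
  constructor
  · rintro ⟨x, y, hxy, hf, D, hD⟩
    refine ⟨x - y, sub_ne_zero.2 hxy, hf.subset fun i hi => sub_ne_zero.1 hi, D,
      fun t i j hi hj => ?_⟩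
    rw [iter_sub] at hi hj
    exact hD t i j (sub_ne_zero.1 hi) (sub_ne_zero.1 hj)
  · rintro ⟨c, hc, hf, D, hD⟩
    refine ⟨c, 0, hc, hf, D, fun t i j hi hj => ?_⟩
    rw [iter_zero] at hi hj
    exact hD t i j hi hj

lemma short_period [Fintype A] {q : ℕ} (hq : 0 < q) {k : ℤ} {c : ℤ → A} (hc : c ≠ 0)
    (hf : (support c).Finite) (he : (abelianCA r h)^[q] c = sh k c) :
    ∃ m : ℕ, 1 ≤ m ∧ m ≤ Fintype.card A * Fintype.card A ∧ ∃ (k' : ℤ) (u : ℤ → A), u ≠ 0 ∧
      (support u).Finite ∧ (abelianCA r h)^[m] u = sh k' u := by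
  let W : AddSubgroup (ℤ → A) :=
    { carrier := {x | (support x).Finite ∧ (abelianCA r h)^[q] x = sh k x}
      zero_mem' := ⟨by simp, iter_zero h q⟩
      add_mem' := fun {a b} ha hb => ⟨(ha.1.union hb.1).subset (support_add a b), by
        rw [iter_eq, map_add, ← iter_eq, ← iter_eq, ha.2, hb.2]; rfl⟩
      neg_mem' := fun {a} ha => ⟨by simpa using ha.1, by
        rw [iter_eq, map_neg, ← iter_eq, ha.2]; rfl⟩ }
  have : Nontrivial W := ⟨⟨⟨c, hf, he⟩, 0, fun h0 => hc (congrArg Subtype.val h0)⟩⟩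
  let S : ℤ → AddMonoid.End W := fun l => AddMonoidHom.mk'
    (fun x => ⟨sh l x, finite_sh l x.2.1, by rw [iter_sh, x.2.2, sh_sh, sh_sh, add_comm]⟩)
    fun _ _ => rfl
  let s : (AddMonoid.End W)ˣ := ⟨S 1, S (-1),
    AddMonoidHom.ext fun x => Subtype.ext ((sh_sh 1 (-1) x.1).trans
      (by rw [add_neg_cancel, sh_zero]; rfl)),
    AddMonoidHom.ext fun x => Subtype.ext ((sh_sh (-1) 1 x.1).trans
      (by rw [neg_add_cancel, sh_zero]; rfl))⟩
  let f : AddMonoid.End W := AddMonoidHom.mk'
    (fun x => ⟨abelianCA r h x, finite_iter h 1 x.2.1, by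
      rw [← iterate_succ_apply, iterate_succ_apply', x.2.2, (local_ca h).sh]⟩)
    fun x y => Subtype.ext (map_add (caHom h) _ _)
  have hf' : ∀ (m : ℕ) (x : W), ((f ^ m) x : ℤ → A) = (abelianCA r h)^[m] x := fun m x => by
    induction m with
    | zero => rfl
    | succ m ih => rw [iterate_succ_apply', ← ih, pow_succ']; rfl
  have hs : ∀ (x : W) i, W.subtype ((s : AddMonoid.End W) x) i = W.subtype x (i - 1) :=
    fun _ _ => rfl
  have hs' : ∀ (l : ℤ) (x : W), (((s ^ l : (AddMonoid.End W)ˣ) : AddMonoid.End W) x : ℤ → A) =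
      sh l x := fun l x => funext fun i => shift_zpow W.subtype s hs l x i
  have hfq : f ^ q = ((s ^ k : (AddMonoid.End W)ˣ) : AddMonoid.End W) :=
    AddMonoidHom.ext fun x => Subtype.ext ((hf' q x).trans (x.2.2.trans (hs' k x).symm))
  obtain ⟨φ, hφ⟩ : IsUnit f := (isUnit_pow_iff hq.ne').1 (hfq ▸ Units.isUnit _)
  obtain ⟨m, hm1, hm2, k', u, hu, he'⟩ := exists_short_period W.subtype Subtype.val_injective
    (fun x => x.2.1) φ s hs (Units.ext (by
      rw [Units.val_mul, Units.val_mul, hφ]
      exact AddMonoidHom.ext fun x => Subtype.ext ((local_ca h).sh 1 _))) q hq k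
    (Units.ext (by rw [Units.val_pow_eq_pow_val, hφ, hfq]))
  refine ⟨m, hm1, by rwa [Nat.card_eq_fintype_card] at hm2, k', u,
    fun h0 => hu (Subtype.ext h0), u.2.1, ?_⟩
  rw [← hf', ← hs', ← he', Units.val_pow_eq_pow_val, hφ]

lemma hasSoliton_iff' [Fintype A] : HasSoliton (abelianCA r h) ↔ ∃ q : ℕ, 1 ≤ q ∧
    q ≤ Fintype.card A * Fintype.card A ∧ ∃ c : ℤ → A, c ≠ 0 ∧ (support c).Finite ∧
      ((abelianCA r h)^[q] c = 0 ∨ ∃ k, (abelianCA r h)^[q] c = sh k c) := by
  classical
  rw [hasSoliton_iff]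
  constructor
  · rintro ⟨c, hc, hf, D, hD⟩
    by_cases h0 : ∃ t, (abelianCA r h)^[t] c = 0
    · have hpos : Nat.find h0 ≠ 0 := fun h1 => hc (by simpa [h1] using Nat.find_spec h0)
      obtain ⟨t, ht⟩ := Nat.exists_eq_succ_of_ne_zero hpos
      refine ⟨1, le_rfl, Nat.mul_pos Fintype.card_pos Fintype.card_pos, (abelianCA r h)^[t] c,
        Nat.find_min h0 (by omega), finite_iter h t hf, Or.inl ?_⟩
      have := Nat.find_spec h0
      rwa [ht, iterate_succ_apply'] at this
    push Not at h0
    choose a ha ha' using fun t => Set.exists_min_image _ id (finite_iter h t hf)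
      (support_nonempty_iff.2 (h0 t))
    have key : ∀ t t' : ℕ, t < t' → (∀ d : Fin (D + 1), (abelianCA r h)^[t] c (a t + d) =
        (abelianCA r h)^[t'] c (a t' + d)) → ∃ q : ℕ, 1 ≤ q ∧
        q ≤ Fintype.card A * Fintype.card A ∧ ∃ c : ℤ → A, c ≠ 0 ∧ (support c).Finite ∧
        ((abelianCA r h)^[q] c = 0 ∨ ∃ k, (abelianCA r h)^[q] c = sh k c) := by
      intro t t' htt hw
      have hz : ∀ t i, ¬ (a t ≤ i ∧ i ≤ a t + D) → (abelianCA r h)^[t] c i = 0 := fun t i hi => by
        by_contra hne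
        have h1 : a t ≤ i := ha' t i hne
        have h2 := abs_le.1 (hD t i _ hne (ha t))
        exact hi ⟨h1, by omega⟩
      obtain ⟨m, hm1, hm2, k', u, hu, huf, he⟩ := short_period h (q := t' - t) (by omega)
        (k := a t' - a t) (h0 t) (finite_iter h t hf) (funext fun i => by
          rw [← iterate_add_apply, Nat.sub_add_cancel htt.le, sh]
          by_cases hi : a t' ≤ i ∧ i ≤ a t' + D
          · have := hw ⟨(i - a t').toNat, by omega⟩
            simp only at this
            rw [show a t' + ((i - a t').toNat : ℤ) = i by omega,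
              show a t + ((i - a t').toNat : ℤ) = i - (a t' - a t) by omega] at this
            exact this.symm
          · rw [hz t' i hi, hz t _ (by omega)])
      exact ⟨m, hm1, hm2, u, hu, huf, Or.inr ⟨k', he⟩⟩
    obtain ⟨t, t', htt, he⟩ := Finite.exists_ne_map_eq_of_infinite
      fun (t : ℕ) (d : Fin (D + 1)) => (abelianCA r h)^[t] c (a t + ((d : ℕ) : ℤ))
    rcases lt_or_gt_of_ne htt with h1 | h1
    · exact key t t' h1 (congrFun he)
    · exact key t' t h1 (congrFun he.symm)
  · rintro ⟨q, hq, -, c, hc, hf, he⟩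
    have hfin := (Set.finite_Iio q).biUnion fun t _ => finite_iter h t hf
    obtain ⟨a, ha⟩ := hfin.bddBelow
    obtain ⟨b, hb⟩ := hfin.bddAbove
    have hall : ∀ t, (abelianCA r h)^[t] c = 0 ∨
        ∃ k, ∃ t' < q, (abelianCA r h)^[t] c = sh k ((abelianCA r h)^[t'] c) := fun t => by
      induction t using Nat.strong_induction_on with
      | _ t ih =>
        by_cases ht : t < q
        · exact Or.inr ⟨0, t, ht, (sh_zero _).symm⟩
        rw [← Nat.sub_add_cancel (not_lt.1 ht), iterate_add_apply]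
        rcases he with he | ⟨k, he⟩
        · rw [he, iter_zero]
          exact Or.inl rfl
        · rw [he, iter_sh]
          rcases ih (t - q) (by omega) with h1 | ⟨k', t', ht', h1⟩
          · rw [h1]
            exact Or.inl rfl
          · exact Or.inr ⟨k + k', t', ht', by rw [h1, sh_sh]⟩
    refine ⟨c, hc, hf, (b - a).toNat, fun t i j hi hj => ?_⟩
    rcases hall t with h1 | ⟨k, t', ht', h1⟩
    · exact absurd (congrFun h1 i) hi
    · rw [h1] at hi hj
      have h2 := ha (Set.mem_biUnion ht' hi)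
      have h3 := hb (Set.mem_biUnion ht' hi)
      have h4 := ha (Set.mem_biUnion ht' hj)
      have h5 := hb (Set.mem_biUnion ht' hj)
      rw [abs_le]
      constructor <;> omega

lemma bounded_iff [Fintype A] (q : ℕ) : (∃ c : ℤ → A, c ≠ 0 ∧ (support c).Finite ∧
      ((abelianCA r h)^[q] c = 0 ∨ ∃ k, (abelianCA r h)^[q] c = sh k c)) ↔
    ∃ c : ℤ → A, c ≠ 0 ∧
      (∀ i : ℤ, ¬ (0 ≤ i ∧ i < (Fintype.card A ^ (2 * (r * q)) + 1 : ℕ)) → c i = 0) ∧
      ((abelianCA r h)^[q] c = 0 ∨ ∃ s < 2 * (r * q) + 1,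
        (abelianCA r h)^[q] c = sh ((s : ℤ) - (r * q : ℕ)) c) := by
  have hl := (local_ca h).iterate q
  constructor
  · rintro ⟨c, hc, hf, he | ⟨k, he⟩⟩
    · obtain ⟨c', h1, h2, h3⟩ := pump' hl hc hf he
      exact ⟨c', h1, h2, Or.inl h3⟩
    have hk : |k| ≤ (r * q : ℕ) := by
      obtain ⟨a, ha, ha'⟩ := Set.exists_min_image _ id hf (support_nonempty_iff.2 hc)
      obtain ⟨b, hb, hb'⟩ := Set.exists_max_image _ id hf (support_nonempty_iff.2 hc)
      obtain ⟨d, hd, hd'⟩ := hl.exists_ne (iter_zero h q) (x := c) (i := a + k)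
        (by rw [he]; simpa [sh] using ha)
      obtain ⟨e, he1, he'⟩ := hl.exists_ne (iter_zero h q) (x := c) (i := b + k)
        (by rw [he]; simpa [sh] using hb)
      have h1 : a ≤ a + k + d := ha' _ hd'
      have h2 : b + k + e ≤ b := hb' _ he'
      rw [abs_le] at hd he1 ⊢
      constructor <;> omega
    have hl' : Local (fun x => (abelianCA r h)^[q] x - sh k x) (r * q) := fun x y i j hd => by
      simp only [Pi.sub_apply, hl x y i j hd, sh, sub_eq_add_neg i, sub_eq_add_neg j,
        hd (-k) (by rwa [abs_neg])]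
    obtain ⟨c', h1, h2, h3⟩ := pump' hl' hc hf (sub_eq_zero.2 he)
    rw [abs_le] at hk
    refine ⟨c', h1, h2, Or.inr ⟨(k + (r * q : ℕ)).toNat, by omega, ?_⟩⟩
    rw [show (((k + (r * q : ℕ)).toNat : ℕ) : ℤ) - (r * q : ℕ) = k by omega]
    exact sub_eq_zero.1 h3
  · rintro ⟨c, hc, hs, he⟩
    refine ⟨c, hc, (Set.finite_Ico (0 : ℤ) _).subset fun i hi => by_contra fun h1 => hi (hs i h1),
      he.imp id ?_⟩
    rintro ⟨s, -, he⟩
    exact ⟨_, he⟩

end Pool.Agent.MP_5c31ca_lc

end MrgPart1

-- ======== part 2: formerly Pool.Agent.MP_5c31ca_lc.Algo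
section MrgPart2

/-!
# The decision procedure
-/

set_option autoImplicit false

open Function

namespace Pool.Agent.MP_5c31ca_lc

/-- One step of the automaton on a finite word, which grows by `r` cells on each side. -/
def step {β : Type} (add : β → β → β) (hh : ℕ → β → β) (z : β) (r : ℕ) (w : List β) : List β :=
  (List.range (w.length + 2 * r)).map fun i => (List.range (2 * r + 1)).foldl
    (fun acc j => add acc (hh j (((List.replicate (2 * r) z ++ w)[i + j]?).getD z))) z

lemma length_step {β : Type} (add : β → β → β) (hh : ℕ → β → β) (z : β) (r : ℕ) (w : List β) :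
    (step add hh z r w).length = w.length + 2 * r := by simp [step]

lemma length_iter {β : Type} (add : β → β → β) (hh : ℕ → β → β) (z : β) (r q : ℕ) (w : List β) :
    ((step add hh z r)^[q] w).length = w.length + 2 * (r * q) := by
  induction q with
  | zero => simp
  | succ q ih => rw [iterate_succ_apply', length_step, ih]; ring

lemma map_step {β γ : Type} (e : β → γ) {add : β → β → β} {hh : ℕ → β → β} {add' : γ → γ → γ}
    {hh' : ℕ → γ → γ} (z : β) (r : ℕ) (hadd : ∀ a b, e (add a b) = add' (e a) (e b))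
    (hhh : ∀ j < 2 * r + 1, ∀ a, e (hh j a) = hh' j (e a)) (w : List β) :
    (step add hh z r w).map e = step add' hh' (e z) r (w.map e) := by
  simp only [step, List.map_map, List.length_map]
  refine List.map_congr_left fun i _ => ?_
  have key : ∀ (l : List ℕ) (acc : β), (∀ j ∈ l, j < 2 * r + 1) →
      e (l.foldl (fun acc j => add acc
        (hh j (((List.replicate (2 * r) z ++ w)[i + j]?).getD z))) acc) =
      l.foldl (fun acc j => add' acc
        (hh' j (((List.replicate (2 * r) (e z) ++ w.map e)[i + j]?).getD (e z)))) (e acc) := by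
    intro l
    induction l with
    | nil => intro _ _; rfl
    | cons j l ih =>
      intro acc hl
      rw [List.foldl_cons, List.foldl_cons, ih _ fun j hj => hl j (List.mem_cons_of_mem _ hj), hadd,
        hhh j (hl j List.mem_cons_self), ← List.map_replicate, ← List.map_append, List.getElem?_map,
        Option.getD_map]
  exact key _ z fun j hj => List.mem_range.1 hj

lemma map_iter {β γ : Type} (e : β → γ) {add : β → β → β} {hh : ℕ → β → β} {add' : γ → γ → γ}
    {hh' : ℕ → γ → γ} (z : β) (r : ℕ) (hadd : ∀ a b, e (add a b) = add' (e a) (e b))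
    (hhh : ∀ j < 2 * r + 1, ∀ a, e (hh j a) = hh' j (e a)) (q : ℕ) (w : List β) :
    ((step add hh z r)^[q] w).map e = (step add' hh' (e z) r)^[q] (w.map e) := by
  induction q with
  | zero => rfl
  | succ q ih => rw [iterate_succ_apply', iterate_succ_apply', map_step e z r hadd hhh, ih]

section semantics

variable {A : Type} [AddCommGroup A]

/-- The finite configuration described by a word with offset `o`. -/
def conf (o : ℕ) (v : List A) : ℤ → A :=
  fun p => if 0 ≤ p + o then (v[(p + o).toNat]?).getD 0 else 0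

lemma conf_pad (o m : ℕ) (v : List A) : conf (o + m) (List.replicate m 0 ++ v) = conf o v := by
  funext p
  simp only [conf]
  by_cases h1 : 0 ≤ p + o
  · rw [if_pos h1, if_pos (by omega), List.getElem?_append_right (by simp; omega)]
    congr 2
    simp
    omega
  · rw [if_neg h1]
    split_ifs with h2
    · rw [List.getElem?_append_left (by simp; omega), List.getElem?_replicate, if_pos (by omega)]
      rfl
    · rfl

lemma conf_append (o m : ℕ) (v : List A) : conf o (v ++ List.replicate m 0) = conf o v := by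
  funext p
  simp only [conf]
  split_ifs with h1
  · by_cases h2 : (p + o).toNat < v.length
    · rw [List.getElem?_append_left h2]
    · rw [List.getElem?_append_right (not_lt.1 h2), List.getElem?_eq_none (not_lt.1 h2),
        List.getElem?_replicate]
      split_ifs <;> rfl
  · rfl

lemma conf_replicate (o m : ℕ) : conf o (List.replicate m (0 : A)) = 0 := by
  rw [← List.nil_append (List.replicate m 0), conf_append]
  funext p
  simp [conf]

lemma conf_eq_zero (o : ℕ) (v : List A) {p : ℤ} (hp : ¬ (0 ≤ p + o ∧ p + o < v.length)) :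
    conf o v p = 0 := by
  simp only [conf]
  split_ifs with h1
  · rw [List.getElem?_eq_none (by omega)]
    rfl
  · rfl

lemma conf_inj (o : ℕ) {v v' : List A} (hl : v.length = v'.length) (h : conf o v = conf o v') :
    v = v' := by
  refine List.ext_getElem hl fun i h1 h2 => ?_
  have := congrFun h ((i : ℤ) - o)
  simpa [conf, h1, h2] using this

lemma conf_shift (R s : ℕ) (v : List A) :
    conf R (List.replicate s 0 ++ v ++ List.replicate (2 * R - s) 0) =
      sh ((s : ℤ) - R) (conf 0 v) := by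
  rw [conf_append, ← conf_pad 0 s v]
  funext p
  simp only [conf, sh]
  rw [show p - ((s : ℤ) - R) + ((0 + s : ℕ) : ℤ) = p + R by push_cast; ring]

lemma exists_conf (L : ℕ) (c : ℤ → A) (hc : ∀ i : ℤ, ¬ (0 ≤ i ∧ i < L) → c i = 0) :
    ∃ v : List A, v.length = L ∧ conf 0 v = c := by
  refine ⟨(List.range L).map fun i : ℕ => c i, by simp, funext fun p => ?_⟩
  by_cases hp : 0 ≤ p ∧ p < L
  · have h1 : p.toNat < L := by omega
    simp [conf, hp.1, h1]
  · rw [hc p hp, conf_eq_zero]
    simpa using hp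

variable {r : ℕ} (h : Fin (2 * r + 1) → A →+ A)

/-- The endomorphisms indexed by natural numbers. -/
def hhA (j : ℕ) (a : A) : A := if hj : j < 2 * r + 1 then h ⟨j, hj⟩ a else 0

lemma foldl_range (f : ℕ → A) (m : ℕ) :
    (List.range m).foldl (fun acc j => acc + f j) 0 = ∑ j ∈ Finset.range m, f j := by
  induction m with
  | zero => rfl
  | succ m ih => rw [List.range_succ, List.foldl_append, ih, Finset.sum_range_succ]; rfl

lemma conf_step (o : ℕ) (v : List A) :
    conf (o + r) (step (· + ·) (hhA h) 0 r v) = abelianCA r h (conf o v) := by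
  funext p
  by_cases hp : 0 ≤ p + (o + r : ℕ) ∧ p + (o + r : ℕ) < (v.length + 2 * r : ℕ)
  · have h1 : (p + (o + r : ℕ)).toNat < v.length + 2 * r := by omega
    rw [conf, if_pos hp.1, step, List.getElem?_map, List.getElem?_range h1, Option.map_some,
      Option.getD_some, foldl_range, Finset.sum_range, abelianCA, ← conf_pad o (2 * r) v]
    refine Finset.sum_congr rfl fun j _ => ?_
    rw [hhA, dif_pos j.2, conf, if_pos (by omega)]
    congr 3
    omega
  · rw [conf_eq_zero _ _ (by rwa [length_step]), abelianCA]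
    refine (Finset.sum_eq_zero fun j _ => ?_).symm
    have := j.2
    rw [conf_eq_zero _ _ (by omega), map_zero]

lemma conf_iter (q : ℕ) (v : List A) :
    conf (r * q) ((step (· + ·) (hhA h) 0 r)^[q] v) = (abelianCA r h)^[q] (conf 0 v) := by
  induction q with
  | zero => rfl
  | succ q ih => rw [iterate_succ_apply', iterate_succ_apply', ← ih, ← conf_step, Nat.mul_succ]

end semantics

/-- The test on a word `w` and its image `u`. -/
def Test {β : Type} (z : β) (R : ℕ) (w u : List β) : Prop :=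
  w ≠ List.replicate w.length z ∧ (u = List.replicate u.length z ∨
    ∃ s < 2 * R + 1, u = List.replicate s z ++ w ++ List.replicate (2 * R - s) z)

lemma test_map {β γ : Type} {e : β → γ} (he : Injective e) (z : β) (R : ℕ) (w u : List β) :
    Test (e z) R (w.map e) (u.map e) ↔ Test z R w u := by
  simp only [Test, ← List.map_replicate, ← List.map_append, List.length_map, ne_eq,
    (List.map_injective_iff.2 he).eq_iff]

lemma hasSoliton_iff_test {A : Type} [AddCommGroup A] [Fintype A] {r : ℕ}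
    (h : Fin (2 * r + 1) → A →+ A) : HasSoliton (abelianCA r h) ↔
    ∃ q < Fintype.card A * Fintype.card A + 1, 1 ≤ q ∧ ∃ v : List A,
      v.length = Fintype.card A ^ (2 * (r * q)) + 1 ∧
      Test 0 (r * q) v ((step (· + ·) (hhA h) 0 r)^[q] v) := by
  have key : ∀ (q : ℕ) (v : List A), Test 0 (r * q) v ((step (· + ·) (hhA h) 0 r)^[q] v) ↔
      conf 0 v ≠ 0 ∧ ((abelianCA r h)^[q] (conf 0 v) = 0 ∨ ∃ s < 2 * (r * q) + 1,
        (abelianCA r h)^[q] (conf 0 v) = sh ((s : ℤ) - (r * q : ℕ)) (conf 0 v)) := by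
    intro q v
    rw [← conf_iter]
    refine and_congr (not_congr ⟨fun h1 => ?_, fun h1 => ?_⟩) (or_congr ⟨fun h1 => ?_, fun h1 => ?_⟩
      (exists_congr fun s => and_congr_right fun hs => ⟨fun h1 => ?_, fun h1 => ?_⟩))
    · rw [h1, conf_replicate]
    · exact conf_inj 0 (by simp) (h1.trans (conf_replicate _ _).symm)
    · rw [h1, conf_replicate]
    · exact conf_inj _ (by simp) (h1.trans (conf_replicate _ _).symm)
    · rw [h1, conf_shift]
    · refine conf_inj _ ?_ (h1.trans (conf_shift _ _ _).symm)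
      simp only [length_iter, List.length_append, List.length_replicate]
      omega
  rw [hasSoliton_iff']
  refine exists_congr fun q => ?_
  rw [bounded_iff, Nat.lt_succ_iff, and_left_comm]
  refine and_congr_right fun _ => and_congr_right fun _ => ⟨?_, ?_⟩
  · rintro ⟨c, h1, h2, h3⟩
    obtain ⟨v, hv, rfl⟩ := exists_conf _ c h2
    exact ⟨v, hv, (key q v).2 ⟨h1, h3⟩⟩
  · rintro ⟨v, hv, ht⟩
    obtain ⟨h1, h3⟩ := (key q v).1 ht
    exact ⟨_, h1, fun i hi => conf_eq_zero _ _ (by simpa [hv] using hi), h3⟩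

/-! ### The primitive recursive procedure -/

/-- Inputs. -/
abbrev Inp : Type := List (List ℕ) × List (List ℕ)

/-- Table lookup. -/
def look (T : List (List ℕ)) (a b : ℕ) : ℕ := (T.getD a []).getD b 0

/-- All words of length `L` over `{0, …, n - 1}`. -/
def words (n L : ℕ) : List (List ℕ) :=
  (fun ws : List (List ℕ) => ws.flatMap fun w => (List.range n).map fun a => a :: w)^[L] [[]]

lemma mem_words (n L : ℕ) (w : List ℕ) : w ∈ words n L ↔ w.length = L ∧ ∀ a ∈ w, a < n := by
  induction L generalizing w with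
  | zero =>
    simp only [words, iterate_zero, id, List.mem_singleton, List.length_eq_zero_iff]
    exact ⟨fun h => ⟨h, by simp [h]⟩, fun h => h.1⟩
  | succ L ih =>
    unfold words at ih ⊢
    rw [iterate_succ_apply']
    simp only [List.mem_flatMap, ih, List.mem_map, List.mem_range]
    constructor
    · rintro ⟨w', ⟨h1, h2⟩, a, ha, rfl⟩
      exact ⟨by simp [h1], by simpa [ha] using h2⟩
    · rintro ⟨h1, h2⟩
      rcases w with _ | ⟨a, w'⟩
      · simp at h1
      · exact ⟨w', ⟨by simpa using h1, fun b hb => h2 b (List.mem_cons_of_mem _ hb)⟩, a,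
          h2 a List.mem_cons_self, rfl⟩

/-- One step on coded words. -/
def stepN (p : Inp × ℕ) (w : List ℕ) : List ℕ :=
  step (look p.1.1) (look p.1.2) p.2 (p.1.2.length / 2) w

/-- The decision predicate. -/
def Check (I : Inp) : Prop :=
  ∃ z < I.1.length, look I.1 z z = z ∧ ∃ q < I.1.length * I.1.length + 1, 1 ≤ q ∧
    ∃ w ∈ words I.1.length (I.1.length ^ (2 * (I.2.length / 2 * q)) + 1),
      Test z (I.2.length / 2 * q) w ((stepN (I, z))^[q] w)

open Primrec

lemma primrec_look {α : Type} [Primcodable α] {T : α → List (List ℕ)} {a b : α → ℕ}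
    (hT : Primrec T) (ha : Primrec a) (hb : Primrec b) : Primrec fun x => look (T x) (a x) (b x) :=
  (list_getD 0).comp ((list_getD []).comp hT ha) hb

lemma primrec_replicate {α : Type} [Primcodable α] {k z : α → ℕ} (hk : Primrec k)
    (hz : Primrec z) : Primrec fun x => List.replicate (k x) (z x) :=
  (list_map (list_range.comp hk) (hz.comp fst).to₂).of_eq fun x => by simp

lemma primrec_pow {α : Type} [Primcodable α] {a b : α → ℕ} (ha : Primrec a) (hb : Primrec b) :
    Primrec fun x => a x ^ b x :=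
  (Primrec₂.unpaired'.1 Nat.Primrec.pow).comp ha hb

lemma primrec_words : Primrec₂ words :=
  (nat_iterate snd (const [[]]) (list_flatMap snd (list_map (list_range.comp (fst.comp
    (fst.comp fst))) (list_cons.comp snd (snd.comp fst)).to₂).to₂).to₂).to₂

lemma primrec_stepN : Primrec₂ stepN := by
  have hr : Primrec fun x : (Inp × ℕ) × List ℕ => 2 * (x.1.1.2.length / 2) :=
    nat_mul.comp (const 2) (nat_div.comp (list_length.comp (snd.comp (fst.comp fst))) (const 2))
  have hz : Primrec fun x : (Inp × ℕ) × List ℕ => x.1.2 := snd.comp fst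
  have hpad : Primrec fun x : (Inp × ℕ) × List ℕ =>
      List.replicate (2 * (x.1.1.2.length / 2)) x.1.2 ++ x.2 :=
    list_append.comp (primrec_replicate hr hz) snd
  refine (list_map (list_range.comp (nat_add.comp (list_length.comp snd) hr))
    (list_foldl (h := fun (y : ((Inp × ℕ) × List ℕ) × ℕ) (t : ℕ × ℕ) => look y.1.1.1.1 t.1
      (look y.1.1.1.2 t.2 (((List.replicate (2 * (y.1.1.1.2.length / 2)) y.1.1.2 ++
        y.1.2)[y.2 + t.2]?).getD y.1.1.2)))
      (list_range.comp (succ.comp (hr.comp fst))) (hz.comp fst) ?_).to₂).to₂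
  exact (primrec_look (fst.comp (fst.comp (fst.comp (fst.comp fst)))) (fst.comp snd)
    (primrec_look (snd.comp (fst.comp (fst.comp (fst.comp fst)))) (snd.comp snd)
      (option_getD.comp (list_getElem?.comp (hpad.comp (fst.comp fst))
        (nat_add.comp (snd.comp fst) (snd.comp snd))) (hz.comp (fst.comp fst))))).to₂

lemma primrec_test {α : Type} [Primcodable α] {z R : α → ℕ} {w u : α → List ℕ} (hz : Primrec z)
    (hR : Primrec R) (hw : Primrec w) (hu : Primrec u) :
    PrimrecPred fun x => Test (z x) (R x) (w x) (u x) := by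
  have h2R : Primrec fun x => 2 * R x := nat_mul.comp (const 2) hR
  refine (Primrec.eq.comp hw (primrec_replicate (list_length.comp hw) hz)).not.and
    ((Primrec.eq.comp hu (primrec_replicate (list_length.comp hu) hz)).or ?_)
  have h : PrimrecRel fun (s : ℕ) (x : α) =>
      u x = List.replicate s (z x) ++ w x ++ List.replicate (2 * R x - s) (z x) :=
    Primrec.eq.comp (hu.comp snd) (list_append.comp (list_append.comp
      (primrec_replicate fst (hz.comp snd)) (hw.comp snd))
      (primrec_replicate (nat_sub.comp (h2R.comp snd) fst) (hz.comp snd)))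
  exact (h.exists_mem_list.comp (list_range.comp (succ.comp h2R)) Primrec.id).of_eq fun x => by
    simp

lemma primrec_check : PrimrecPred Check := by
  have hR : Primrec fun x : (Inp × ℕ) × ℕ => x.1.1.2.length / 2 * x.2 :=
    nat_mul.comp (nat_div.comp (list_length.comp (snd.comp (fst.comp fst))) (const 2)) snd
  have hn : Primrec fun x : (Inp × ℕ) × ℕ => x.1.1.1.length :=
    list_length.comp (fst.comp (fst.comp fst))
  have h1 : PrimrecRel fun (w : List ℕ) (x : (Inp × ℕ) × ℕ) =>
      Test x.1.2 (x.1.1.2.length / 2 * x.2) w ((stepN x.1)^[x.2] w) :=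
    primrec_test (snd.comp (fst.comp snd)) (hR.comp snd) fst
      (nat_iterate (snd.comp snd) fst (primrec_stepN.comp (fst.comp (snd.comp fst)) snd).to₂)
  have h2 : PrimrecPred fun x : (Inp × ℕ) × ℕ => 1 ≤ x.2 ∧
      ∃ w ∈ words x.1.1.1.length (x.1.1.1.length ^ (2 * (x.1.1.2.length / 2 * x.2)) + 1),
        Test x.1.2 (x.1.1.2.length / 2 * x.2) w ((stepN x.1)^[x.2] w) :=
    (nat_le.comp (const 1) snd).and (h1.exists_mem_list.comp (primrec_words.comp hn
      (succ.comp (primrec_pow hn (nat_mul.comp (const 2) hR)))) Primrec.id)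
  have h3 : PrimrecRel fun (q : ℕ) (y : Inp × ℕ) => 1 ≤ q ∧
      ∃ w ∈ words y.1.1.length (y.1.1.length ^ (2 * (y.1.2.length / 2 * q)) + 1),
        Test y.2 (y.1.2.length / 2 * q) w ((stepN y)^[q] w) := h2.comp (snd.pair fst)
  have hn' : Primrec fun y : Inp × ℕ => y.1.1.length := list_length.comp (fst.comp fst)
  have h4 : PrimrecPred fun y : Inp × ℕ => look y.1.1 y.2 y.2 = y.2 ∧
      ∃ q < y.1.1.length * y.1.1.length + 1, 1 ≤ q ∧
      ∃ w ∈ words y.1.1.length (y.1.1.length ^ (2 * (y.1.2.length / 2 * q)) + 1),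
        Test y.2 (y.1.2.length / 2 * q) w ((stepN y)^[q] w) :=
    (Primrec.eq.comp (primrec_look (fst.comp fst) snd snd) snd).and
      ((h3.exists_mem_list.comp (list_range.comp (succ.comp (nat_mul.comp hn' hn')))
        Primrec.id).of_eq fun x => by simp only [List.mem_range, id])
  have h5 : PrimrecRel fun (z : ℕ) (I : Inp) => look I.1 z z = z ∧
      ∃ q < I.1.length * I.1.length + 1, 1 ≤ q ∧
      ∃ w ∈ words I.1.length (I.1.length ^ (2 * (I.2.length / 2 * q)) + 1),
        Test z (I.2.length / 2 * q) w ((stepN (I, z))^[q] w) := h4.comp (snd.pair fst)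
  exact (h5.exists_mem_list.comp (list_range.comp (list_length.comp fst)) Primrec.id).of_eq
    fun x => by simp only [List.mem_range, id, Check]

theorem check_iff {A : Type} [AddCommGroup A] {n r : ℕ} (e : Fin n ≃ A)
    (h : Fin (2 * r + 1) → A →+ A) : Check (code e h) ↔ HasSoliton (abelianCA r h) := by
  have : Fintype A := Fintype.ofEquiv _ e
  have hn : Fintype.card A = n := by rw [← Fintype.card_congr e, Fintype.card_fin]
  let enc : A → ℕ := fun a => e.symm a
  have henc : Injective enc := Fin.val_injective.comp e.symm.injective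
  have hl1 : (code e h).1.length = n := by simp [code]
  have hl2 : (code e h).2.length / 2 = r := by
    simp only [code, List.length_ofFn]
    omega
  have hadd : ∀ a b, enc (a + b) = look (code e h).1 (enc a) (enc b) := fun a b => by
    simp [look, code, enc]
  have hhh : ∀ j < 2 * r + 1, ∀ a, enc (hhA h j a) = look (code e h).2 j (enc a) :=
    fun j hj a => by
      simp only [look, code, enc, hhA, dif_pos hj, List.getD_eq_getElem?_getD, List.getElem?_ofFn,
        (e.symm a).2, dif_pos, Option.getD_some, Fin.eta, Equiv.apply_symm_apply]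
  have hiter : ∀ q (v : List A), (stepN (code e h, enc 0))^[q] (v.map enc) =
      ((step (· + ·) (hhA h) 0 r)^[q] v).map enc := fun q v => by
    rw [map_iter enc 0 r hadd hhh]
    unfold stepN
    simp only [hl2]
  rw [hasSoliton_iff_test, hn, Check, hl1, hl2]
  constructor
  · rintro ⟨z, hz, hzz, q, hq, hq1, w, hw, ht⟩
    obtain ⟨a, rfl⟩ : ∃ a, enc a = z := ⟨e ⟨z, hz⟩, by simp [enc]⟩
    rw [← hadd] at hzz
    obtain rfl : a = 0 := by simpa using henc hzz
    rw [mem_words] at hw
    obtain ⟨v, rfl⟩ : ∃ v : List A, v.map enc = w :=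
      ⟨w.pmap (fun a ha => e ⟨a, ha⟩) hw.2, by simp [List.map_pmap, enc]⟩
    rw [hiter, test_map henc] at ht
    exact ⟨q, hq, hq1, v, by simpa using hw.1, ht⟩
  · rintro ⟨q, hq, hq1, v, hv, ht⟩
    refine ⟨enc 0, (e.symm 0).2, by rw [← hadd, add_zero], q, hq, hq1, v.map enc,
      (mem_words _ _ _).2 ⟨by simpa using hv, ?_⟩, by rwa [hiter, test_map henc]⟩
    intro a ha
    obtain ⟨b, -, rfl⟩ := List.mem_map.1 ha
    exact (e.symm b).2

end Pool.Agent.MP_5c31ca_lc

end MrgPart2

-- marker of a merged file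
example : 731051 + 783315 = 731051 + 783315 := rfl
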